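import Mathlib
import Pool.Agent.H94.SQ.Main

/-!
# Stack number and diameter of graphs with queue number two
-/

set_option autoImplicit false

namespace Pool.Agent.Results.MP_593d75_co.Diameter

/-- Let `G` be a graph with a 2-queue layout (vertex order `σ`, edge colours `c`, no two nested
edges of the same colour) such that any two vertices are joined by a walk of length at most `D`.
Then `G` has a stack layout with `10 (D + 1)` pages (vertex order `τ`, edge colours `d`, no two
crossing edges of the same colour). -/
theorem result (n D : ℕ) (G : SimpleGraph (Fin n))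
    (hD : ∀ a b : Fin n, ∃ p : G.Walk a b, p.length ≤ D)
    (σ : Equiv.Perm (Fin n)) (c : Fin n → Fin n → Fin 2)
    (h : ∀ a b x y : Fin n, G.Adj a b → G.Adj x y → σ a < σ b → σ x < σ y →
      c a b = c x y → ¬ (σ a < σ x ∧ σ x < σ y ∧ σ y < σ b)) :
    ∃ τ : Equiv.Perm (Fin n), ∃ d : Fin n → Fin n → Fin (10 * (D + 1)),
      ∀ a b x y : Fin n, G.Adj a b → G.Adj x y → τ a < τ b → τ x < τ y →
        d a b = d x y → ¬ (τ a < τ x ∧ τ x < τ b ∧ τ b < τ y) :=
  H94SQ.diam (c := c) h hD

end Pool.Agent.Results.MP_593d75_co.Diameter
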