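import Mathlib
import Pool.Agent.Helper63.SQ6.Final

/-!
# Stack number of graphs with queue number two

There is a graph with a 2-queue layout and without a 5-stack layout.
-/

set_option autoImplicit false

namespace Pool.Agent.Results.MP_593d75_co.SixStacks

/-- There is a finite graph which has a 2-queue layout (vertex order `σ`, edge colours `c`, no two
nested edges of the same colour) and which has no 5-stack layout: every vertex order and every
colouring of the edges with five colours has two crossing edges of the same colour. -/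
theorem result :
    ∃ n : ℕ, ∃ G : SimpleGraph (Fin n),
      (∃ σ : Equiv.Perm (Fin n), ∃ c : Fin n → Fin n → Fin 2,
        ∀ a b x y : Fin n, G.Adj a b → G.Adj x y → σ a < σ b → σ x < σ y →
          c a b = c x y → ¬ (σ a < σ x ∧ σ x < σ y ∧ σ y < σ b)) ∧
      (∀ σ : Equiv.Perm (Fin n), ∀ c : Fin n → Fin n → Fin 5,
        ∃ a b x y : Fin n, G.Adj a b ∧ G.Adj x y ∧ σ a < σ b ∧ σ x < σ y ∧
          c a b = c x y ∧ σ a < σ x ∧ σ x < σ b ∧ σ b < σ y) := by
  obtain ⟨N, hN⟩ := Helper63.SQ6.main
  exact ⟨5 * N + 10, Helper63.SQ6.GG N, Helper63.SQ6.queue N, hN⟩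

end Pool.Agent.Results.MP_593d75_co.SixStacks
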